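import Pool.Agent.H673R3.EnergyPPC
import Pool.Agent.Y471.PPC.Dim

/-!
# One sequence of large additive energy with Poissonian pair correlations on a set of full dimension

Blocks in arithmetic progression, powers of two elsewhere. The numbers `α` which follow the
prescribed targets at the powers of two have full Hausdorff dimension.
-/

set_option autoImplicit false
set_option maxHeartbeats 400000

namespace Pool.Agent.Y471.EN

open Filter Topology Finset
open Pool.Agent.Results.MP_b61c36_nt.PPCCounterexample Pool.Agent.H673R3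
open Pool.Agent.Y471.PPC (Foll SS SS_lim le_RR_pow)

/-- the sequence -/
def aE (j : ℕ → ℕ) (n : ℕ) : ℕ :=
  if inB j n then (n - 2 ^ Nat.log 2 n + 1) * 2 ^ tt (2 ^ Nat.log 2 n) else 2 ^ tt n

/-- the targets -/
noncomputable def vE (j : ℕ → ℕ) (y : ℕ → ℝ) (n : ℕ) : ℝ :=
  if inB j n then 1 / (mm j (Nat.log 2 n) : ℝ) else y (Nat.count (fun m => ¬ inB j m) n)

lemma aE_blk (j : ℕ → ℕ) (k i : ℕ) (hi : i < mm j k) :
    aE j (2 ^ k + i) = (i + 1) * 2 ^ tt (2 ^ k) := by
  unfold aE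
  rw [if_pos (inB_blk j k i hi), log_blk j k i hi]
  congr 2
  omega

lemma aE_not (j : ℕ → ℕ) (n : ℕ) (h : ¬ inB j n) : aE j n = 2 ^ tt n := by
  unfold aE; rw [if_neg h]

lemma aE_pos (j : ℕ → ℕ) (n : ℕ) : 0 < aE j n := by
  unfold aE; split_ifs <;> positivity

lemma aE_le (j : ℕ → ℕ) (n : ℕ) : aE j n ≤ (n + 1) * 2 ^ tt n := by
  unfold aE
  split_ifs with h
  · have h1 : 2 ^ Nat.log 2 n ≤ n := Nat.pow_log_le_self 2 (by unfold inB at h; omega)
    exact Nat.mul_le_mul (Nat.succ_le_succ (Nat.sub_le _ _))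
      (Nat.pow_le_pow_right (by norm_num) (tt_mono h1))
  · exact Nat.le_mul_of_pos_left _ (by omega)

lemma aE_strictMono (j : ℕ → ℕ) : StrictMono (aE j) := by
  apply strictMono_nat_of_lt_succ
  intro n
  have hbig : aE j n < 2 ^ tt (n + 1) := by
    refine lt_of_le_of_lt (aE_le j n) ?_
    rw [tt_succ, pow_add, mul_comm]
    apply Nat.mul_lt_mul_of_pos_left _ (by positivity)
    refine lt_of_lt_of_le (Nat.lt_two_pow_self) (Nat.pow_le_pow_right (by norm_num) ?_)
    unfold ell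
    omega
  by_cases h : inB j (n + 1)
  · by_cases h2 : Nat.log 2 (n + 1) = Nat.log 2 n ∧ 1 ≤ n
    · obtain ⟨h2, hn⟩ := h2
      obtain ⟨k, hk⟩ : ∃ k, Nat.log 2 n = k := ⟨_, rfl⟩
      rw [hk] at h2
      have h3 : 2 ^ k ≤ n := by rw [← hk]; exact Nat.pow_log_le_self 2 (by omega)
      obtain ⟨i, hi⟩ := Nat.exists_eq_add_of_le h3
      have h4 : i + 1 < mm j k := by
        unfold inB at h
        rw [h2, hi] at h
        omega
      rw [hi, aE_blk j k i (by omega), show 2 ^ k + i + 1 = 2 ^ k + (i + 1) by ring,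
        aE_blk j k (i + 1) h4]
      exact Nat.mul_lt_mul_of_pos_right (by omega) (by positivity)
    · have h3 : n + 1 = 2 ^ Nat.log 2 (n + 1) := by
        have h4 : 2 ^ Nat.log 2 (n + 1) ≤ n + 1 := Nat.pow_log_le_self 2 (by omega)
        by_contra hne
        have h5 : 2 ^ Nat.log 2 (n + 1) ≤ n := by omega
        have h6 : 1 ≤ n := le_trans Nat.one_le_two_pow h5
        apply h2
        refine ⟨?_, h6⟩
        apply le_antisymm
        · exact Nat.le_log_of_pow_le (by norm_num) h5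
        · exact Nat.log_mono_right (by omega)
      refine lt_of_lt_of_le hbig (le_of_eq ?_)
      have h4 := aE_blk j (Nat.log 2 (n + 1)) 0 (mm_pos j _)
      rw [add_zero, ← h3] at h4
      rw [h4]
      ring
  · rw [aE_not j _ h]
    exact hbig

/-- block indices below `N`, beyond `2 ^ k0` -/
def BC (j : ℕ → ℕ) (k0 N : ℕ) : Finset ℕ := (range N).filter (fun n => inB j n ∧ k0 ≤ Nat.log 2 n)

lemma BC_sub (j : ℕ → ℕ) (k0 N : ℕ) :
    BC j k0 N ⊆ ((range (Nat.log 2 N + 1)).filter (fun k => k0 ≤ k)).biUnion (blk j) := by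
  intro n hn
  unfold BC at hn
  rw [Finset.mem_filter, mem_range] at hn
  rw [Finset.mem_biUnion]
  refine ⟨Nat.log 2 n, ?_, inB_mem_blk j n hn.2.1⟩
  rw [Finset.mem_filter, mem_range]
  have := Nat.log_mono_right (b := 2) hn.1.le
  exact ⟨by omega, hn.2.2⟩

/-- pairs inside the union of the late blocks -/
lemma Q_BC (j : ℕ → ℕ) (x : ℕ → ℝ) (k0 N : ℕ) (δ : ℝ) (hδ0 : 0 < δ) (hδ1 : δ ≤ 1)
    (hsep : ∀ k, k0 ≤ k → k ≤ Nat.log 2 N → ∀ n ∈ blk j k, ∀ n' ∈ blk j k, n ≠ n' →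
      δ ≤ nd (x n - x n')) :
    (Q x (BC j k0 N) (BC j k0 N) δ : ℝ) ≤ 5 * SR j (Nat.log 2 N) ^ 2 := by
  classical
  set K := Nat.log 2 N with hK
  set R := (range (K + 1)).filter (fun k => k0 ≤ k) with hR
  have hself : ∀ k ∈ R, Q x (blk j k) (blk j k) δ = mm j k := by
    intro k hk
    rw [hR, Finset.mem_filter, mem_range] at hk
    rw [Q_self _ _ _ hδ0, blk_card]
    have : offA x (blk j k) δ = 0 := by
      unfold offA
      rw [Finset.card_eq_zero, Finset.filter_eq_empty_iff]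
      intro p hp
      rw [Finset.mem_offDiag] at hp
      rw [not_lt]
      exact hsep k hk.2 (by omega) p.1 hp.1 p.2 hp.2.1 hp.2.2
    omega
  have h1 : (Q x (BC j k0 N) (BC j k0 N) δ : ℝ) ≤
      ∑ k ∈ R, ∑ k' ∈ R, (Q x (blk j k) (blk j k') δ : ℝ) := by
    exact_mod_cast (Q_mono x (BC_sub j k0 N) δ).trans (Q_biUnion_le x _ _ δ)
  have h2 : ∀ k ∈ R, ∀ k' ∈ R, (Q x (blk j k) (blk j k') δ : ℝ) ≤
      5 * (Real.sqrt (mm j k) * Real.sqrt (mm j k')) := by
    intro k hk k' hk'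
    have := Q_cs_real x (blk j k) (blk j k') δ hδ0 hδ1
    rw [hself k hk, hself k' hk', Real.sqrt_mul (Nat.cast_nonneg _)] at this
    exact this
  have h3 : ∑ k ∈ R, Real.sqrt (mm j k) ≤ SR j K := by
    unfold SR
    exact Finset.sum_le_sum_of_subset_of_nonneg (Finset.filter_subset _ _)
      (fun _ _ _ => Real.sqrt_nonneg _)
  have h4 : 0 ≤ ∑ k ∈ R, Real.sqrt (mm j k) := Finset.sum_nonneg fun _ _ => Real.sqrt_nonneg _
  refine h1.trans ((Finset.sum_le_sum fun k hk => Finset.sum_le_sum fun k' hk' =>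
    h2 k hk k' hk').trans ?_)
  have h5 : ∑ k ∈ R, ∑ k' ∈ R, 5 * (Real.sqrt (mm j k) * Real.sqrt (mm j k')) =
      5 * (∑ k ∈ R, Real.sqrt (mm j k)) ^ 2 := by
    rw [pow_two, Finset.sum_mul_sum, Finset.mul_sum]
    refine Finset.sum_congr rfl fun k _ => ?_
    rw [Finset.mul_sum]
  rw [h5]
  exact mul_le_mul_of_nonneg_left (pow_le_pow_left₀ h4 h3 2) (by norm_num)

/-- separation inside a block -/
lemma sepE (j : ℕ → ℕ) (α : ℝ) (k : ℕ)
    (hD : nd ((2 : ℝ) ^ tt (2 ^ k) * α - 1 / (mm j k : ℝ)) ≤ 1 / (2 * (mm j k : ℝ) ^ 2))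
    (n n' : ℕ) (hn : n ∈ blk j k) (hn' : n' ∈ blk j k) (hne : n ≠ n') :
    1 / (2 * (mm j k : ℝ)) ≤ nd ((aE j n : ℝ) * α - (aE j n' : ℝ) * α) := by
  unfold blk at hn hn'
  rw [Finset.mem_Ico] at hn hn'
  obtain ⟨i, rfl⟩ := Nat.exists_eq_add_of_le hn.1
  obtain ⟨i', rfl⟩ := Nat.exists_eq_add_of_le hn'.1
  have hi : i < mm j k := by omega
  have hi' : i' < mm j k := by omega
  rw [aE_blk j k i hi, aE_blk j k i' hi']
  have h1 := separated (mm j k) (mm_pos j k) ((2 : ℝ) ^ tt (2 ^ k) * α) hD i i' hi hi' (by omega)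
  have h2 : (((i + 1) * 2 ^ tt (2 ^ k) : ℕ) : ℝ) * α - (((i' + 1) * 2 ^ tt (2 ^ k) : ℕ) : ℝ) * α =
      (i : ℝ) * ((2 : ℝ) ^ tt (2 ^ k) * α) - (i' : ℝ) * ((2 : ℝ) ^ tt (2 ^ k) * α) := by
    push_cast; ring
  rw [h2]
  exact h1

theorem ppc_aE (j : ℕ → ℕ) (y : ℕ → ℝ) (hy : PPC y)
    (hj : ∀ k, j k ≤ k) (hj' : Tendsto j atTop atTop) {α : ℝ} (hα : α ∈ Foll (vE j y)) :
    PPC (fun n => (aE j n : ℝ) * α) := by
  classical
  obtain ⟨n0, hn0⟩ := eventually_atTop.1 hα
  set z : ℕ → ℝ := fun n => (aE j n : ℝ) * α with hz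
  set n1 : ℕ := 2 ^ n0 with hn1
  have hn01 : n0 < n1 := Nat.lt_two_pow_self
  refine ppc_compare z y hy (fun n => Nat.count (fun m => ¬ inB j m) n)
    (fun N => (range N).filter (fun n => ¬ inB j n ∧ SS n1 N ≤ n))
    (fun N => (range N).filter (fun n => inB j n ∨ n < SS n1 N)) (fun N => range (SS n1 N))
    (fun N => Nat.count (fun n => ¬ inB j n) N) (fun N => 1 / (N : ℝ) ^ 2) ?_ ?_ ?_ ?_ ?_ ?_ ?_
    (M_limB j hj hj') ?_ ?_
  · intro N
    ext n
    simp only [Finset.mem_union, Finset.mem_filter]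
    constructor
    · rintro (h | h)
      · exact h.1
      · exact h.1
    · intro h
      by_cases h1 : inB j n
      · right; exact ⟨h, Or.inl h1⟩
      · rcases lt_or_ge n (SS n1 N) with h2 | h2
        · right; exact ⟨h, Or.inr h2⟩
        · left; exact ⟨h, h1, h2⟩
  · intro N n hn m hm h
    rw [Finset.mem_coe, Finset.mem_filter] at hn hm
    exact Nat.count_injective hn.2.1 hm.2.1 h
  · intro N
    have := count_notB j N
    show Nat.count (fun n => ¬ inB j n) N ≤ N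
    omega
  · intro N m hm
    rw [Finset.mem_image] at hm
    obtain ⟨n, hn, rfl⟩ := hm
    rw [Finset.mem_filter, mem_range] at hn
    rw [mem_range]
    exact Nat.count_strict_mono hn.2.1 hn.1
  · intro N m hm
    rw [mem_range] at hm
    obtain ⟨n, h1, h2, h3⟩ := count_surj _ N m hm
    rw [Finset.mem_union]
    rcases lt_or_ge n (SS n1 N) with h4 | h4
    · right
      rw [mem_range, ← h3]
      have : Nat.count (fun n => ¬ inB j n) n ≤ n := by
        have := count_notB j n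
        omega
      omega
    · left
      rw [Finset.mem_image]
      refine ⟨n, ?_, h3⟩
      rw [Finset.mem_filter, mem_range]
      exact ⟨h1, h2, h4⟩
  · intro N n hn
    rw [Finset.mem_filter, mem_range] at hn
    obtain ⟨h1, h2, h3⟩ := hn
    unfold SS at h3
    have h4 := hn0 n (by omega)
    rw [vE, if_neg h2] at h4
    have h5 : z n = (2 : ℝ) ^ tt n * α := by
      rw [hz]
      simp only [aE_not j n h2]
      push_cast
      ring
    rw [h5]
    refine h4.trans ?_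
    have hNR : (0 : ℝ) < N := by
      have : 0 < N := by omega
      exact_mod_cast this
    have h6 : N ≤ (n + 1) ^ 4 :=
      (le_RR_pow N).trans (Nat.pow_le_pow_left (by omega) 4)
    have h6R : (N : ℝ) ≤ ((n : ℝ) + 1) ^ 4 := by exact_mod_cast h6
    apply one_div_le_one_div_of_le (by positivity)
    calc (N : ℝ) ^ 2 ≤ (((n : ℝ) + 1) ^ 4) ^ 2 := pow_le_pow_left₀ hNR.le h6R 2
      _ = ((n : ℝ) + 1) ^ 8 := by ring
  · refine (tendsto_one_div_atTop_nhds_zero_nat (𝕜 := ℝ)).congr' ?_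
    filter_upwards [eventually_ge_atTop 1] with N hN
    have hNR : (0 : ℝ) < N := by exact_mod_cast hN
    field_simp
  · intro s hs
    have h1 := (((SR_limN j hj hj').const_mul (5 : ℝ)).add (SS_lim n1)).const_mul (6 : ℝ)
    rw [mul_zero, add_zero, mul_zero] at h1
    refine squeeze_zero' (Eventually.of_forall (fun N => by positivity)) ?_ h1
    have hs1 : ∀ᶠ N : ℕ in atTop, s / (N : ℝ) ≤ 1 := by
      have h1 : Tendsto (fun N : ℕ => s / (N : ℝ)) atTop (𝓝 0) :=
        tendsto_const_div_atTop_nhds_zero_nat s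
      exact (h1.eventually (gt_mem_nhds one_pos)).mono (fun N h => h.le)
    have hs2 : ∀ᶠ N : ℕ in atTop, SR j (Nat.log 2 N) ^ 2 / N < 1 / (2 * s) :=
      (SR_limN j hj hj').eventually (gt_mem_nhds (by positivity))
    filter_upwards [eventually_ge_atTop 2, hs1, hs2] with N hN hsN hsk
    have hNR : (0 : ℝ) < N := by positivity
    have hδ0 : 0 < s / N := div_pos hs hNR
    have h2 : (range N).filter (fun n => inB j n ∨ n < SS n1 N) ⊆
        BC j n0 N ∪ range (SS n1 N) := by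
      intro n hn
      unfold BC
      rw [Finset.mem_filter] at hn
      rw [Finset.mem_union, Finset.mem_filter, mem_range (n := SS n1 N)]
      rcases lt_or_ge n (SS n1 N) with h | h
      · right; exact h
      · rcases hn.2 with h' | h'
        · left
          refine ⟨hn.1, h', ?_⟩
          apply Nat.le_log_of_pow_le (by norm_num)
          unfold SS at h
          omega
        · omega
    have h3 := (Q_mono z h2 (s / N)).trans (Q_union_le6 z (BC j n0 N) (range (SS n1 N)) _ hδ0 hsN)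
    have h4 : (Q z (BC j n0 N) (BC j n0 N) (s / N) : ℝ) ≤ 5 * SR j (Nat.log 2 N) ^ 2 := by
      apply Q_BC j z n0 N _ hδ0 hsN
      intro k hk0 hk n hn n' hn' hne
      have hm0 : (0 : ℝ) < mm j k := by exact_mod_cast mm_pos j k
      have hacc : nd ((2 : ℝ) ^ tt (2 ^ k) * α - 1 / (mm j k : ℝ)) ≤
          1 / (2 * (mm j k : ℝ) ^ 2) := by
        have h5 := hn0 (2 ^ k) (hk0.trans (Nat.lt_two_pow_self).le)
        have h6 : inB j (2 ^ k) := by
          have := inB_blk j k 0 (mm_pos j k)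
          rwa [add_zero] at this
        have h7 : Nat.log 2 (2 ^ k) = k := Nat.log_pow (by norm_num) k
        rw [vE, if_pos h6, h7] at h5
        refine h5.trans ?_
        apply one_div_le_one_div_of_le (by positivity)
        push_cast
        have a1 : (mm j k : ℝ) ≤ 2 ^ k := by exact_mod_cast mm_le j k
        have a2 : (1 : ℝ) ≤ 2 ^ k := one_le_pow₀ (by norm_num)
        calc 2 * (mm j k : ℝ) ^ 2 ≤ ((2 : ℝ) ^ k + 1) * ((2 : ℝ) ^ k + 1) ^ 2 := by
              apply mul_le_mul (by linarith) (pow_le_pow_left₀ hm0.le (by linarith) 2)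
                (by positivity) (by positivity)
          _ = ((2 : ℝ) ^ k + 1) ^ 3 := by ring
          _ ≤ ((2 : ℝ) ^ k + 1) ^ 8 := pow_le_pow_right₀ (by linarith) (by norm_num)
      refine le_trans ?_ (sepE j α k hacc n n' hn hn' hne)
      have h5 := mm_le_SR j (Nat.log 2 N) k hk
      rw [div_lt_div_iff₀ hNR (by positivity)] at hsk
      rw [div_le_div_iff₀ hNR (by positivity)]
      nlinarith
    have h5 : (Q z (range (SS n1 N)) (range (SS n1 N)) (s / N) : ℝ) ≤ (SS n1 N : ℝ) ^ 2 := by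
      have := Q_le_card_sq z (range (SS n1 N)) (s / N)
      rw [card_range] at this
      exact_mod_cast this
    have h3R : (Q z ((range N).filter (fun n => inB j n ∨ n < SS n1 N))
        ((range N).filter (fun n => inB j n ∨ n < SS n1 N)) (s / N) : ℝ) ≤
        6 * ((Q z (BC j n0 N) (BC j n0 N) (s / N) : ℝ) +
          (Q z (range (SS n1 N)) (range (SS n1 N)) (s / N) : ℝ)) := by
      exact_mod_cast h3
    rw [mul_div_assoc', ← add_div, mul_div_assoc']
    apply div_le_div_of_nonneg_right _ hNR.le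
    linarith
  · simp only [card_range]
    exact SS_lim n1

theorem mainE (ψ : ℕ → ℝ) (hψ : Tendsto ψ atTop atTop) :
    ∃ a : ℕ → ℕ, StrictMono a ∧ (∀ n, 0 < a n) ∧
      (∃ N₀ : ℕ, ∀ N : ℕ, N₀ ≤ N → (N : ℝ) ^ 3 / ψ N ≤ en a N) ∧
      ∃ v : ℕ → ℝ, ∀ α ∈ Foll v, PPC (fun n => (a n : ℝ) * α) := by
  obtain ⟨j, hj, hj', hjψ⟩ := exists_exponent ψ hψ
  obtain ⟨y, hy⟩ := exists_ppc
  refine ⟨aE j, aE_strictMono j, aE_pos j, ?_, vE j y, fun α hα => ppc_aE j y hy hj hj' hα⟩
  obtain ⟨k0, hk0⟩ := eventually_atTop.1 hjψ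
  refine ⟨2 ^ (k0 + 1), fun N hN => ?_⟩
  have hN0 : N ≠ 0 := by
    have : 0 < 2 ^ (k0 + 1) := by positivity
    omega
  have hlog : k0 + 1 ≤ Nat.log 2 N := Nat.le_log_of_pow_le (by norm_num) hN
  obtain ⟨k, hk⟩ := Nat.exists_eq_add_of_le' (show 1 ≤ Nat.log 2 N by omega)
  have hk1 : 2 ^ (k + 1) ≤ N := by
    rw [← hk]; exact Nat.pow_log_le_self 2 hN0
  have hk2 : N < 2 ^ (k + 2) := by
    have := Nat.lt_pow_succ_log_self (b := 2) (by norm_num) N
    rwa [hk] at this
  have hψN := hk0 k (by omega) N hk1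
  have hmk := mm_le j k
  have hE := en_ge (aE j) N (2 ^ k) (mm j k) (2 ^ tt (2 ^ k)) ((mm j k + 1) / 2)
    (by rw [pow_succ] at hk1; omega) (by omega) (fun i hi => by
      rw [aE_blk j k i hi]
      have h0 := aE_blk j k 0 (mm_pos j k)
      rw [add_zero] at h0
      rw [h0]
      ring)
  have hER : (((mm j k + 1) / 2 : ℕ) : ℝ) ^ 3 ≤ (en (aE j) N : ℝ) := by exact_mod_cast hE
  refine le_trans ?_ hER
  have h1 : (mm j k : ℝ) / 2 ≤ (((mm j k + 1) / 2 : ℕ) : ℝ) := by
    have : mm j k ≤ ((mm j k + 1) / 2) * 2 := by omega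
    rw [div_le_iff₀ (by norm_num)]
    exact_mod_cast this
  have h2 : ((mm j k : ℝ) / 2) ^ 3 ≤ (((mm j k + 1) / 2 : ℕ) : ℝ) ^ 3 :=
    pow_le_pow_left₀ (by positivity) h1 3
  refine le_trans ?_ h2
  have hψ0 : (0 : ℝ) < ψ N := lt_of_lt_of_le (by positivity) hψN
  rw [div_le_iff₀ hψ0]
  have h3 : (mm j k : ℝ) * 2 ^ j k = 2 ^ k := by
    unfold mm
    push_cast
    rw [← pow_add]
    congr 1
    have := hj k
    omega
  have h4 : (N : ℝ) ≤ 4 * 2 ^ k := by
    have : (N : ℝ) ≤ 2 ^ (k + 2) := by exact_mod_cast hk2.le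
    rw [pow_add] at this
    linarith
  calc (N : ℝ) ^ 3 ≤ (4 * 2 ^ k) ^ 3 := pow_le_pow_left₀ (by positivity) h4 3
    _ = ((mm j k : ℝ) / 2) ^ 3 * 2 ^ (9 + 3 * j k) := by
      rw [← h3, pow_add, pow_mul']
      ring
    _ ≤ ((mm j k : ℝ) / 2) ^ 3 * ψ N := mul_le_mul_of_nonneg_left hψN (by positivity)

end Pool.Agent.Y471.EN
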